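import Pool.Agent.Lib.MP_eee7a8_ag.TB.IfaceA

/-!
# TAGBR group A: modules FIN and FAMFIN
-/

namespace Pool.Agent.Lib.MP_eee7a8_ag.TB.A.H54

theorem finite_box (a b : Cusp) (hab : a ≠ b) (B : ℤ) :
    {c : Cusp | |dt a c| ≤ B ∧ |dt b c| ≤ B}.Finite := by
  have hf : (Set.Icc (-B) B ×ˢ Set.Icc (-B) B : Set (ℤ × ℤ)).Finite :=
    (Set.finite_Icc _ _).prod (Set.finite_Icc _ _)
  refine Set.Finite.of_finite_image (hf.subset ?_) (f := fun c => (dt a c, dt b c)) ?_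
  · rintro _ ⟨c, ⟨h1, h2⟩, rfl⟩
    exact ⟨abs_le.1 h1, abs_le.1 h2⟩
  · intro c _ c' _ h
    simp only [Prod.mk.injEq] at h
    obtain ⟨h1, h2⟩ := h
    have h0 := dt_ne_zero hab
    have k1 : ∀ c, dt a b * c.x = b.x * dt a c - a.x * dt b c := by
      intro c; unfold dt; ring
    have k2 : ∀ c, dt a b * c.y = b.y * dt a c - a.y * dt b c := by
      intro c; unfold dt; ring
    refine Cusp.ext (mul_left_cancel₀ h0 ?_) (mul_left_cancel₀ h0 ?_)
    · rw [k1, k1, h1, h2]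
    · rw [k2, k2, h1, h2]

/-- FIN. -/
theorem fin : FinStatement := by
  intro N a b
  by_cases hab : a = b
  · subst hab
    refine Set.Finite.subset Set.finite_empty ?_
    rintro p ⟨-, hc⟩
    exact absurd rfl hc.ne.2.2.2.2.2
  · have hB := (finite_box a b hab (N * |dt a b|)).prod (finite_box a b hab (N * |dt a b|))
    refine hB.subset ?_
    rintro ⟨c, d⟩ ⟨hN, hc⟩
    simp only at hN hc
    have hp := hc.ptolemy
    obtain ⟨-, n1, n2, n3, n4, -⟩ := hc.ne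
    rw [hN] at hp
    have m1 := one_le_abs_dt n1
    have m2 := one_le_abs_dt n2
    have m3 := one_le_abs_dt n3
    have m4 := one_le_abs_dt n4
    rw [dt_abs_symm] at m1 m2 m3 m4
    rw [dt_abs_symm c a, dt_abs_symm c b, dt_abs_symm d a, dt_abs_symm d b] at hp
    change (|dt a c| ≤ N * |dt a b| ∧ |dt b c| ≤ N * |dt a b|) ∧
      (|dt a d| ≤ N * |dt a b| ∧ |dt b d| ≤ N * |dt a b|)
    generalize |dt a c| = p1 at *
    generalize |dt b c| = p2 at *
    generalize |dt a d| = p3 at *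
    generalize |dt b d| = p4 at *
    have q1 : p1 ≤ p1 * p4 := le_mul_of_one_le_right (by omega) m4
    have q4 : p4 ≤ p1 * p4 := le_mul_of_one_le_left (by omega) m1
    have q2 : p2 ≤ p2 * p3 := le_mul_of_one_le_right (by omega) m3
    have q3 : p3 ≤ p2 * p3 := le_mul_of_one_le_left (by omega) m2
    rw [hp]
    refine ⟨⟨?_, ?_⟩, ⟨?_, ?_⟩⟩ <;> omega

/-- FAMFIN for `Finite κ`. -/
theorem famfin' (G : Subgroup SLZ) (κ : Type) [Finite κ] (Q : Fam κ) (a b : Cusp) :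
    {p : Cusp × Cusp | Q.E G p.1 p.2 ∧ Cross p.1 p.2 a b}.Finite := by
  have := Set.finite_iUnion (fun i : κ => fin |dt (Q.s i) (Q.t i)| a b)
  refine this.subset ?_
  rintro p ⟨⟨i, hi⟩, hc⟩
  exact Set.mem_iUnion.2 ⟨i, hi.abs_dt.symm, hc⟩

/-- FAMFIN. -/
theorem famfin : FamFinStatement := by
  intro G κ _ Q a b
  exact famfin' G κ Q a b

end Pool.Agent.Lib.MP_eee7a8_ag.TB.A.H54
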