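import Pool.Agent.Lib.MP_eee7a8_ag.TB.IfaceA

/-!
# TAGBR group A: module FLIP
-/

namespace Pool.Agent.Lib.MP_eee7a8_ag.TB.A.H54

variable {G : Subgroup SLZ} {ι : Type}

/-! ## Combinatorics of crossings -/

theorem cr1 {a f u v y : Cusp} (h : Cross a f u v) (h1 : Cross a y u v) (hy : y ≠ f) :
    Cross a y f u ∨ Cross a y f v := by
  simp only [cross_iff] at *
  grind (splits := 60)

theorem cr2 {x a u f y : Cusp} (h : Cross a f x u) (h1 : Cross x y u a) : Cross x y a f := by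
  simp only [cross_iff] at *
  grind (splits := 60)

theorem cr3 {a f x p z : Cusp} (h : Cross a f x p) (h1 : Cross x z p a) : Cross f z p a := by
  simp only [cross_iff] at *
  grind (splits := 60)

theorem cr4 {x a f u v : Cusp} (h : Cross a f u v) (h1 : Cross x a u v) : ¬ Cross x f u v := by
  simp only [cross_iff] at *
  grind (splits := 60)

/-! ## The edges of the flip -/

theorem flip_E (T : Fam ι) (hT : T.IsTri G) (i : ι) (a f p q : Cusp) :
    (T.flip i a f).E G p q ↔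
      SameArc G a f p q ∨ (T.E G p q ∧ ¬ SameArc G (T.s i) (T.t i) p q) := by
  constructor
  · rintro ⟨j, hj⟩
    by_cases hji : j = i
    · left
      simpa [Fam.flip, hji] using hj
    · right
      have hj' : SameArc G (T.s j) (T.t j) p q := by
        simpa [Fam.flip, hji] using hj
      exact ⟨⟨j, hj'⟩, fun hc => hji (hT.index hj' hc)⟩
  · rintro (h | ⟨⟨j, hj⟩, h⟩)
    · exact ⟨i, by simpa [Fam.flip] using h⟩
    · have hji : j ≠ i := by
        rintro rfl
        exact h hj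
      exact ⟨j, by simpa [Fam.flip, hji] using hj⟩

/-- The quadrilateral of the flip over the pair `pq`. -/
structure Quad (G : Subgroup SLZ) (T T' : Fam ι) (p q a f : Cusp) : Prop where
  af : T'.E G a f
  ap : T'.E G a p
  aq : T'.E G a q
  fp : T'.E G f p
  fq : T'.E G f q
  cr : Cross a f p q
  pq' : T.E G p q
  ap' : T.E G a p
  aq' : T.E G a q
  fp' : T.E G f p
  fq' : T.E G f q

theorem Quad.swap {T T' : Fam ι} {p q a f : Cusp} (h : Quad G T T' p q a f) :
    Quad G T T' p q f a :=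
  ⟨h.af.symm, h.fp, h.fq, h.ap, h.aq, cross_comm_left.1 h.cr, h.pq', h.fp', h.fq', h.ap', h.aq'⟩

theorem Quad.swap' {T T' : Fam ι} {p q a f : Cusp} (h : Quad G T T' p q a f) :
    Quad G T T' q p a f :=
  ⟨h.af, h.aq, h.ap, h.fq, h.fp, cross_comm_right.1 h.cr, h.pq'.symm, h.aq', h.ap', h.fq', h.fp'⟩

theorem Quad.smul {T T' : Fam ι} {p q a f : Cusp} (h : Quad G T T' p q a f) {g : SLZ}
    (hg : g ∈ G) : Quad G T T' (g • p) (g • q) (g • a) (g • f) :=
  ⟨h.af.smul hg, h.ap.smul hg, h.aq.smul hg, h.fp.smul hg, h.fq.smul hg,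
    (cross_smul g _ _ _ _).2 h.cr, h.pq'.smul hg, h.ap'.smul hg, h.aq'.smul hg, h.fp'.smul hg,
    h.fq'.smul hg⟩

/-- The third vertex over `pq` is one of the two vertices of the quadrilateral. -/
theorem Quad.third {T T' : Fam ι} (hT : T.NonCross G) {p q a f x : Cusp}
    (h : Quad G T T' p q a f) (h1 : T.E G x p) (h2 : T.E G x q) :
    ∃ f', Quad G T T' p q x f' := by
  by_cases hc : Cross x a p q
  · have h3 : ¬ Cross x f p q := cr4 h.cr hc
    have := hT.third h.pq' h1 h2 h.fp' h.fq' h3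
    subst this
    exact ⟨a, h.swap⟩
  · have := hT.third h.pq' h1 h2 h.ap' h.aq' hc
    subst this
    exact ⟨f, h⟩

/-- FLIP. -/
theorem flip (hS : SidesStatement) : FlipStatement := by
  intro G hG ι _ T T' F hT hstep
  obtain ⟨i, a, f, -, h1, h2, h3, h4, h5, h6, rfl⟩ := hstep
  have hE := flip_E T hT i a f
  have hcd : T.E G (T.s i) (T.t i) := T.E_self i
  have s1 := hS G hG ι T hT a f _ _ hcd h1 h2 h3 h4 h5 h6
  have s2 := hS G hG ι T hT a f _ _ hcd.symm h2 h1 h4 h3 (cross_comm_right.1 h5) h6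
  have h6' : Simple G f a := h6.of_same (SameArc.rev a f)
  have s3 := hS G hG ι T hT f a _ _ hcd h3 h4 h1 h2 (cross_comm_left.1 h5) h6'
  have s4 := hS G hG ι T hT f a _ _ hcd.symm h4 h3 h2 h1
    (cross_comm_left.1 (cross_comm_right.1 h5)) h6'
  have hrev : ∀ {p q : Cusp}, SameArc G (T.s i) (T.t i) p q → SameArc G (T.t i) (T.s i) p q :=
    fun h => (SameArc.rev _ _).trans h
  -- the quadrilateral
  have Q0 : Quad G T (T.flip i a f) (T.s i) (T.t i) a f :=
    { af := (hE _ _).2 (Or.inl (SameArc.refl a f))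
      ap := (hE _ _).2 (Or.inr ⟨h1, s1.1⟩)
      aq := (hE _ _).2 (Or.inr ⟨h2, fun h => s2.1 (hrev h)⟩)
      fp := (hE _ _).2 (Or.inr ⟨h3, s3.1⟩)
      fq := (hE _ _).2 (Or.inr ⟨h4, fun h => s4.1 (hrev h)⟩)
      cr := h5
      pq' := hcd
      ap' := h1
      aq' := h2
      fp' := h3
      fq' := h4 }
  have QL : ∀ p q : Cusp, SameArc G (T.s i) (T.t i) p q →
      ∃ a' f', Quad G T (T.flip i a f) p q a' f' := by
    rintro p q ⟨g, hg, ⟨rfl, rfl⟩ | ⟨rfl, rfl⟩⟩
    · exact ⟨_, _, Q0.smul hg⟩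
    · exact ⟨_, _, (Q0.smul hg).swap'⟩
  -- old edges
  have hold : ∀ {p q : Cusp}, T.E G p q → ¬ SameArc G (T.s i) (T.t i) p q →
      (T.flip i a f).E G p q := fun h h' => (hE _ _).2 (Or.inr ⟨h, h'⟩)
  -- the new edge crosses no old edge
  have hnc : ∀ p q u v : Cusp, SameArc G a f p q → T.E G u v →
      ¬ SameArc G (T.s i) (T.t i) u v → ¬ Cross p q u v := by
    intro p q u v hpq huv hn hc
    have key : ∀ g ∈ G, ∀ u v : Cusp, T.E G u v → ¬ SameArc G (T.s i) (T.t i) u v →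
        ¬ Cross (g • a) (g • f) u v := by
      intro g hg u v huv hn hc
      have e1 : Cross a f (g⁻¹ • u) (g⁻¹ • v) := by
        rw [← cross_smul g, smul_inv_smul, smul_inv_smul]; exact hc
      have huv' : T.E G (g⁻¹ • u) (g⁻¹ • v) := huv.smul (G.inv_mem hg)
      apply hn
      rcases hT.diag h1 h2 h3 h4 h5 huv' e1 with ⟨e2, e3⟩ | ⟨e2, e3⟩
      · exact ⟨g, hg, Or.inl ⟨by rw [← e2, smul_inv_smul], by rw [← e3, smul_inv_smul]⟩⟩
      · exact ⟨g, hg, Or.inr ⟨by rw [← e3, smul_inv_smul], by rw [← e2, smul_inv_smul]⟩⟩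
    obtain ⟨g, hg, ⟨rfl, rfl⟩ | ⟨rfl, rfl⟩⟩ := hpq
    · exact key g hg u v huv hn hc
    · exact key g hg u v huv hn (cross_comm_left.1 hc)
  have hnew : ∀ p q u v : Cusp, SameArc G a f p q → SameArc G a f u v → ¬ Cross p q u v := by
    intro p q u v hpq huv hc
    have hs : Simple G p q := h6.of_same hpq
    have h7 : SameArc G p q u v := hpq.symm.trans huv
    obtain ⟨g, hg, ⟨rfl, rfl⟩ | ⟨rfl, rfl⟩⟩ := h7
    · exact hs.2 g hg hc
    · exact hs.2 g hg (cross_comm_right.1 hc)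
  -- third vertices over an old edge
  have htri : ∀ p q x : Cusp, T.E G p q → T.E G x p → T.E G x q →
      ∃ x', (T.flip i a f).E G x' p ∧ (T.flip i a f).E G x' q ∧
        ∀ z, Cross x z p q → Cross x' z p q := by
    intro p q x hpq hxp hxq
    by_cases c1 : SameArc G (T.s i) (T.t i) x p
    · obtain ⟨a', f', hQ⟩ := QL x p c1
      obtain ⟨f'', hQ'⟩ := hQ.third hT.toNonCross hxq.symm hpq.symm
      refine ⟨f'', hQ'.fq, hQ'.af.symm, ?_⟩
      intro z hz
      exact cr3 hQ'.cr hz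
    · by_cases c2 : SameArc G (T.s i) (T.t i) x q
      · obtain ⟨a', f', hQ⟩ := QL x q c2
        obtain ⟨f'', hQ'⟩ := hQ.third hT.toNonCross hxp.symm hpq
        refine ⟨f'', hQ'.af.symm, hQ'.fq, ?_⟩
        intro z hz
        exact cross_comm_right.1 (cr3 hQ'.cr (cross_comm_right.1 hz))
      · exact ⟨x, hold hxp c1, hold hxq c2, fun z hz => hz⟩
  refine { ne := ?_, nocross := ?_, inj := ?_, star := ?_, tri := ?_ }
  · intro j
    by_cases hji : j = i
    · simpa [Fam.flip, hji] using h6.1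
    · simpa [Fam.flip, hji] using hT.ne j
  · intro p q u v hpq huv hc
    rcases (hE _ _).1 hpq with e1 | ⟨e1, e1'⟩ <;> rcases (hE _ _).1 huv with e2 | ⟨e2, e2'⟩
    · exact hnew _ _ _ _ e1 e2 hc
    · exact hnc _ _ _ _ e1 e2 e2' hc
    · exact hnc _ _ _ _ e2 e1 e1' (cross_swap.1 hc)
    · exact hT.nocross _ _ _ _ e1 e2 hc
  · intro j k hjk
    by_cases hji : j = i <;> by_cases hki : k = i
    · rw [hji, hki]
    · exfalso
      have : SameArc G a f (T.s k) (T.t k) := by simpa [Fam.flip, hji, hki] using hjk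
      exact s1.2 ⟨k, this.symm⟩
    · exfalso
      have : SameArc G (T.s j) (T.t j) a f := by simpa [Fam.flip, hji, hki] using hjk
      exact s1.2 ⟨j, this⟩
    · exact hT.inj j k (by simpa [Fam.flip, hji, hki] using hjk)
  · intro x y hxy
    rcases hT.star x y hxy with e | ⟨u, v, xu, xv, uv, hc⟩
    · by_cases c : SameArc G (T.s i) (T.t i) x y
      · obtain ⟨a', f', hQ⟩ := QL x y c
        exact Or.inr ⟨a', f', hQ.ap.symm, hQ.fp.symm, hQ.af, cross_swap.1 hQ.cr⟩
      · exact Or.inl (hold e c)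
    · by_cases c : SameArc G (T.s i) (T.t i) u v
      · obtain ⟨a', f', hQ⟩ := QL u v c
        obtain ⟨f'', hQ'⟩ := hQ.third hT.toNonCross xu xv
        by_cases hy : y = f''
        · subst hy
          exact Or.inl hQ'.af
        · right
          rcases cr1 hQ'.cr hc hy with c1 | c1
          · exact ⟨f'', u, hQ'.af, hQ'.ap, hQ'.fp, c1⟩
          · exact ⟨f'', v, hQ'.af, hQ'.aq, hQ'.fq, c1⟩
      · by_cases c1 : SameArc G (T.s i) (T.t i) x u
        · obtain ⟨a', f', hQ⟩ := QL x u c1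
          obtain ⟨f'', hQ'⟩ := hQ.third hT.toNonCross xv.symm uv.symm
          exact Or.inr ⟨v, f'', hQ'.ap.symm, hQ'.fp.symm, hQ'.af, cr2 hQ'.cr hc⟩
        · by_cases c2 : SameArc G (T.s i) (T.t i) x v
          · obtain ⟨a', f', hQ⟩ := QL x v c2
            obtain ⟨f'', hQ'⟩ := hQ.third hT.toNonCross xu.symm uv
            exact Or.inr ⟨u, f'', hQ'.ap.symm, hQ'.fp.symm, hQ'.af,
              cr2 hQ'.cr (cross_comm_right.1 hc)⟩
          · exact Or.inr ⟨u, v, hold xu c1, hold xv c2, hold uv c, hc⟩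
  · intro p q hpq
    rcases (hE _ _).1 hpq with e1 | ⟨e1, e1'⟩
    · obtain ⟨g, hg, ⟨rfl, rfl⟩ | ⟨rfl, rfl⟩⟩ := e1
      · have hQ := Q0.smul hg
        exact ⟨_, _, hQ.ap.symm, hQ.fp.symm, hQ.aq.symm, hQ.fq.symm, cross_swap.1 hQ.cr⟩
      · have hQ := (Q0.smul hg).swap
        exact ⟨_, _, hQ.ap.symm, hQ.fp.symm, hQ.aq.symm, hQ.fq.symm, cross_swap.1 hQ.cr⟩
    · obtain ⟨x, y, t1, t2, t3, t4, hc⟩ := hT.tri p q e1
      obtain ⟨x', k1, k2, k3⟩ := htri p q x e1 t1 t2
      obtain ⟨y', k4, k5, k6⟩ := htri p q y e1 t3 t4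
      refine ⟨x', y', k1, k2, k4, k5, ?_⟩
      exact cross_comm_left.1 (k6 _ (cross_comm_left.1 (k3 _ hc)))

end Pool.Agent.Lib.MP_eee7a8_ag.TB.A.H54
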